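import Pool.Agent.H820.TC.Stm2

set_option autoImplicit false

/-!
# From forms on the dual space to the decomposition of the alternating forms
-/

namespace Pool.Agent.H236.TC

open Module TensorProduct
open Pool.Agent.H820.TC
open Pool.Agent.W305.LC (Bil Alt W W_apply W_mem alt_le)

variable {U : Type} [AddCommGroup U] [Module ℝ U]

theorem W_ext {f g : Alt U} (h : ∀ u v, f.1 (u ⊗ₜ v) = g.1 (u ⊗ₜ v)) : f = g :=
  Subtype.ext (TensorProduct.ext' h)

/-- `α ∧ β` as a bilinear map -/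
noncomputable def Wl (U : Type) [AddCommGroup U] [Module ℝ U] :
    (U →ₗ[ℝ] ℝ) →ₗ[ℝ] (U →ₗ[ℝ] ℝ) →ₗ[ℝ] Alt U :=
  LinearMap.mk₂ ℝ (fun a b => ⟨W a b, W_mem a b⟩)
    (fun a a' b => W_ext fun u v => by
      change W (a + a') b (u ⊗ₜ v) = W a b (u ⊗ₜ v) + W a' b (u ⊗ₜ v)
      simp only [W_apply, LinearMap.add_apply]
      ring)
    (fun c a b => W_ext fun u v => by
      change W (c • a) b (u ⊗ₜ v) = c • W a b (u ⊗ₜ v)
      simp only [W_apply, LinearMap.smul_apply, smul_eq_mul]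
      ring)
    (fun a b b' => W_ext fun u v => by
      change W a (b + b') (u ⊗ₜ v) = W a b (u ⊗ₜ v) + W a b' (u ⊗ₜ v)
      simp only [W_apply, LinearMap.add_apply]
      ring)
    (fun c a b => W_ext fun u v => by
      change W a (c • b) (u ⊗ₜ v) = c • W a b (u ⊗ₜ v)
      simp only [W_apply, LinearMap.smul_apply, smul_eq_mul]
      ring)

theorem Wl_apply (a b : U →ₗ[ℝ] ℝ) : Wl U a b = ⟨W a b, W_mem a b⟩ := rfl

/-- the form `b_l` -/
noncomputable def Ps (U : Type) [AddCommGroup U] [Module ℝ U] :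
    Module.Dual ℝ (Alt U) →ₗ[ℝ] BF (U →ₗ[ℝ] ℝ) where
  toFun l := (Wl U).compr₂ l
  map_add' l l' := by
    ext a b
    rfl
  map_smul' c l := by
    ext a b
    rfl

theorem Ps_apply (l : Module.Dual ℝ (Alt U)) (a b : U →ₗ[ℝ] ℝ) : Ps U l a b = l (Wl U a b) := rfl

/-- the invariant forms -/
def Inv (J : U →ₗ[ℝ] U) : Submodule ℝ (Alt U) where
  carrier := {g | ∀ u v, g.1 (J u ⊗ₜ J v) = g.1 (u ⊗ₜ v)}
  add_mem' := fun {f g} hf hg u v => by
    change f.1 (J u ⊗ₜ J v) + g.1 (J u ⊗ₜ J v) = f.1 (u ⊗ₜ v) + g.1 (u ⊗ₜ v)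
    rw [hf u v, hg u v]
  zero_mem' := fun u v => rfl
  smul_mem' := fun c f hf u v => by
    change c • f.1 (J u ⊗ₜ J v) = c • f.1 (u ⊗ₜ v)
    rw [hf u v]

/-- the transpose -/
theorem exists_transpose [FiniteDimensional ℝ U] (J' : (U →ₗ[ℝ] ℝ) →ₗ[ℝ] (U →ₗ[ℝ] ℝ)) :
    ∃ J : U →ₗ[ℝ] U, ∀ (a : U →ₗ[ℝ] ℝ) (u : U), a (J u) = J' a u := by
  refine ⟨(Module.evalEquiv ℝ U).symm.toLinearMap ∘ₗ (LinearMap.dualMap J') ∘ₗ
    (Module.evalEquiv ℝ U).toLinearMap, fun a u => ?_⟩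
  have h1 : Module.evalEquiv ℝ U (((Module.evalEquiv ℝ U).symm.toLinearMap ∘ₗ
      (LinearMap.dualMap J') ∘ₗ (Module.evalEquiv ℝ U).toLinearMap) u) =
      LinearMap.dualMap J' (Module.evalEquiv ℝ U u) :=
    (Module.evalEquiv ℝ U).apply_symm_apply _
  exact congrArg (fun φ : Module.Dual ℝ (Module.Dual ℝ U) => φ a) h1

theorem t_dual : S_main → S_dual := by
  intro hmain m U _ _ _ hU A hA hcodim
  have hX : finrank ℝ (U →ₗ[ℝ] ℝ) = 2 * m := by
    rw [← hU]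
    exact Subspace.dual_finrank_eq
  let A' : Submodule ℝ (Alt U) := A.comap (Alt U).subtype
  have hA' : finrank ℝ A' = finrank ℝ A := (Submodule.comapSubtypeEquivOfLe hA).finrank_eq
  let D : Submodule ℝ (BF (U →ₗ[ℝ] ℝ)) := A'.dualAnnihilator.map (Ps U)
  have hDalt : IsAlt D := by
    rintro b ⟨l, -, rfl⟩ x
    rw [Ps_apply]
    have h1 : Wl U x x = 0 := by
      refine W_ext fun u v => ?_
      change W x x (u ⊗ₜ v) = 0
      rw [W_apply]
      ring
    rw [h1, map_zero]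
  have hDdim : finrank ℝ D ≤ 4 * (m - 1) := by
    have h1 : finrank ℝ D ≤ finrank ℝ A'.dualAnnihilator := Submodule.finrank_map_le _ _
    have h2 := Subspace.finrank_add_finrank_dualAnnihilator_eq (K := ℝ) (V := Alt U) A'
    omega
  obtain ⟨J', hJ', hgood⟩ := hmain m (U →ₗ[ℝ] ℝ) hX D hDalt hDdim
  obtain ⟨J, hJ⟩ := exists_transpose J'
  have hJJ : ∀ u, J (J u) = -u := by
    intro u
    rw [← sub_eq_zero, ← Module.forall_dual_apply_eq_zero_iff ℝ]
    intro a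
    rw [map_sub, hJ, hJ, hJ', map_neg, LinearMap.neg_apply, sub_self]
  refine ⟨J, hJJ, fun f hf => ?_⟩
  have htop : A' ⊔ Inv J = ⊤ := by
    by_contra hne
    obtain ⟨l, hl0, hl⟩ := Submodule.exists_le_ker_of_lt_top (K := ℝ) (V := Alt U) (A' ⊔ Inv J) (lt_top_iff_ne_top.2 hne)
    apply hl0
    have hlA : ∀ a ∈ A', l a = 0 := fun a ha => LinearMap.mem_ker.1 (hl (Submodule.mem_sup_left ha))
    have hlB : ∀ a ∈ Inv J, l a = 0 := fun a ha =>
      LinearMap.mem_ker.1 (hl (Submodule.mem_sup_right ha))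
    have hmem : Ps U l ∈ D := ⟨l, (Submodule.mem_dualAnnihilator _).2 hlA, rfl⟩
    have hzero : Ps U l = 0 := by
      refine hgood _ hmem fun x y => ?_
      rw [Ps_apply, Ps_apply]
      have h1 : Wl U (J' x) (J' y) + Wl U x y ∈ Inv J := by
        intro u v
        change W (J' x) (J' y) (J u ⊗ₜ J v) + W x y (J u ⊗ₜ J v) =
          W (J' x) (J' y) (u ⊗ₜ v) + W x y (u ⊗ₜ v)
        simp only [W_apply, hJ, hJ', LinearMap.neg_apply]
        ring
      have h2 := hlB _ h1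
      rw [map_add] at h2
      linarith
    have hW : ∀ a b : U →ₗ[ℝ] ℝ, l (Wl U a b) = 0 := by
      intro a b
      rw [← Ps_apply, hzero]
      rfl
    have hle : Alt U ≤ (LinearMap.ker l).map (Alt U).subtype :=
      alt_le fun a b => ⟨Wl U a b, LinearMap.mem_ker.2 (hW a b), rfl⟩
    ext g
    obtain ⟨g', hg', hgg⟩ := hle g.2
    have h3 : g' = g := Subtype.ext hgg
    rw [← h3]
    exact LinearMap.mem_ker.1 hg'
  have hmem : (⟨f, hf⟩ : Alt U) ∈ A' ⊔ Inv J := by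
    rw [htop]
    exact Submodule.mem_top
  obtain ⟨a, ha, g, hg, hag⟩ := Submodule.mem_sup.1 hmem
  refine ⟨a.1, ha, g.1, ?_, hg⟩
  exact (congrArg Subtype.val hag).symm

end Pool.Agent.H236.TC
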